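import Pool.Agent.T6.H36.CV6

/-!
# The Tate conjecture at all layers of Chebyshev towers over finite fields

Let `k` be a finite field with `q` elements, `q` odd, `K = k(t)`, `F = k^sep(t)`, and let
`E : y² = x (x² + a x + b)` be an elliptic curve over `K`, `a`, `b` polynomials. `TateAtTwo` says that
all the classes in `V₂ Sel(E / F)` which are fixed by the Galois group of `k` come from `E(K)`: the Tate
conjecture for divisors at the prime 2 on the elliptic surface over the projective line with generic
fibre `E`; over a finite field this gives both equalities of the conjecture for all primes, the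
finiteness of the Brauer group and the conjecture of Birch and Swinnerton-Dyer for `E`.

For `α ≠ 0` in `k` and odd `m` let `C_m` be the Dickson polynomial of degree `m` and parameter `α`,
divided by `α ^ ((m - 1) / 2)`; it maps `z (w + 1 / w)` to `z (w ^ m + 1 / w ^ m)` for `z² = α`, and
`C_m ∘ C_n = C_{m n}`. For a prime `ℓ` the covers `C_{ℓ ^ j}` form a tower.

Theorem. Let `b` and `a² - 4 b` satisfy the condition `NotNorm` (not a constant times a square or times
a norm of a polynomial over the quadratic extension of `k`), and let `OnlyTrivial` hold for `(a, b)` and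
for `(-2 a, a² - 4 b)`, the curve isogenous to `E`; all this holds for example if `b` and `a² - 4 b` are
irreducible of odd degree.

(1) Let `D ≠ 0` be a polynomial (for example `D = 1`) such that `b` and `a² - 4 b` are not squares modulo
any prime which divides `D`, and `M` a set of prime numbers such that for no root `x + α / x` of
`b (a² - 4 b) D` and no `ℓ` in `M` the quotient `x² / α` is an `ℓ`-th power in `k(x)`. Then for ALL odd
`m` whose prime factors are in `M` the Tate conjecture holds for the base change by `t ↦ C_m(t)` of the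
twist of `E` by `D`, and for its twists by constants.

(2) Let `ℓ` be an odd prime which divides `q² - 1`, and suppose that no product of two or three of the
polynomials `b`, `a² - 4 b`, `t² - 4 α` is a constant times a square and that the condition of (1) holds
for `D = 1` and `M = {ℓ}`. Then for each `η > 0` and all `n ≥ n₀(η)` there are at least
`((1 - 1 / ℓ) / 8 - η) q ^ n / n` monic irreducible polynomials `D` of degree `n` (there are about
`q ^ n / n` such polynomials) such that for all `j` at the same time the Tate conjecture at 2 holds for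
the base change by `t ↦ C_{ℓ ^ j}(t)` of the twist `y² = x (x² + a D x + b D²)`, and for its twists by
constants.

(3) Over the field with five elements, for ALL `j ≥ 0` and `e ≠ 0`, the Tate conjecture holds for
`y² = x (x² + e x + 3 e² (D_{3 ^ j}(t) - 1))`, where `D_n` is the Dickson polynomial
`D_n(w + 1 / w) = w ^ n + 1 / w ^ n`.

The theorems `PrimeTwistsInTowers` and `CompositeCovers` of this problem on the towers of the monomials
`t ^ (ℓ ^ j)` need an odd prime `ℓ` which divides `q - 1`. For the fields with 5, 9, 17, … elements there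
is no such prime, but there is an odd prime `ℓ` as in (2) for all odd `q > 3`; in the example (3) the
polynomials `b` and `a² - 4 b` are linear.

Proof. The criterion of `Pool.Agent.R939.EI.Tw1` applies if the primes which divide `b (a² - 4 b) D`
remain prime after `t ↦ C_m(t)` (`Pool.Agent.T6.H36.CV.irr_Ch`). For (2) the points `x` of the extension
`k_n` of `k` of degree `n` are counted at which `b` and `a² - 4 b` are not squares and `x² - 4 α` is a
square or not a square according to `ℓ ∣ q ^ n - 1` or `ℓ ∣ q ^ n + 1`; by descent on the torus a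
violation of the condition at `x` gives `ℓ` points of `k_n` which `C_ℓ` maps to `x`
(`Pool.Agent.T6.H36.CV.preim`), and these are counted by the bound of Weil for the composites with
`C_ℓ`.
-/

namespace Pool.Agent.Results.MP_8ac872_ag.ChebyshevTowers

open Polynomial IntermediateField Pool.Agent.TH115.GD Pool.Agent.R939.EI

/-- The polynomial `α ^ (-(m - 1) / 2) D_m(t, α)` with the Dickson polynomial `D_m` of the first kind:
for odd `m` and `z² = α` it maps `z (w + 1 / w)` to `z (w ^ m + 1 / w ^ m)`. -/
noncomputable def chebyshev {k : Type} [Field k] (α : k) (m : ℕ) : k[X] :=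
  C ((α ^ ((m - 1) / 2))⁻¹) * dickson 1 α m

/-- The Tate conjecture at 2 for the base changes by `chebyshev α m`, `m` in `L`, and the twists by all
constants `e`, of the curve `y² = x (x² + a x + b)`. -/
def TateForLayers {k : Type} [Field k] (k' K F : Type) [Field k'] [Algebra k k'] [Field K]
    [Algebra k[X] K] [Field F] [Algebra k'[X] F] [IsFractionRing k'[X] F] [Algebra K F]
    (α : k) (L : Set ℕ) (a b : k[X]) : Prop :=
  ∀ m ∈ L, ∀ e : k, e ≠ 0 →
    TateAtTwo (F := F) k' (crvT (algebraMap k[X] K ((C e * a).comp (chebyshev α m)))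
      (algebraMap k[X] K ((C (e ^ 2) * b).comp (chebyshev α m))))

/-- The conditions on `a` and `b`. -/
def Good {k : Type} [Field k] (a b : k[X]) : Prop :=
  NotNorm b ∧ NotNorm (a ^ 2 - 4 * b) ∧ OnlyTrivial a b ∧ OnlyTrivial (-2 * a) (a ^ 2 - 4 * b)

/-- `f` is not a constant times a square. -/
def NotSquare {k : Type} [Field k] (f : k[X]) : Prop := ∀ (c : k) (g : k[X]), f ≠ C c * g ^ 2

/-- For no root `x + α / x` of `f` the quotient `x² / α` is an `ℓ`-th power in `k(x)`. -/
def NoTorusPower {k : Type} [Field k] (f : k[X]) (α : k) (ℓ : ℕ) : Prop :=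
  ∀ x : AlgebraicClosure k, x ≠ 0 → aeval (x + algebraMap k _ α / x) f = 0 → ∀ y ∈ k⟮x⟯,
    algebraMap k _ α * y ^ ℓ ≠ x ^ 2

/-- Statement (1): all the layers `C_m`, `m` odd with prime factors in `M`. -/
def AllLayers {k : Type} [Field k] (k' K F : Type) [Field k'] [Algebra k k'] [Field K]
    [Algebra k[X] K] [Field F] [Algebra k'[X] F] [IsFractionRing k'[X] F] [Algebra K F]
    (α : k) (a b : k[X]) : Prop :=
  ∀ (D : k[X]) (M : Set ℕ), InertIn a b D →
    (∀ ℓ ∈ M, NoTorusPower (b * (a ^ 2 - 4 * b) * D) α ℓ) →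
    TateForLayers k' K F α {m | Odd m ∧ ∀ ℓ : ℕ, ℓ.Prime → ℓ ∣ m → ℓ ∈ M} (a * D) (b * D ^ 2)

/-- No product of two or three of the polynomials `b`, `a² - 4 b`, `t² - 4 α` is a constant times a
square. -/
def Independent {k : Type} [Field k] (α : k) (a b : k[X]) : Prop :=
  NotSquare (b * (a ^ 2 - 4 * b)) ∧ NotSquare (b * (X ^ 2 - C (4 * α))) ∧
    NotSquare ((a ^ 2 - 4 * b) * (X ^ 2 - C (4 * α))) ∧
    NotSquare (b * (a ^ 2 - 4 * b) * (X ^ 2 - C (4 * α)))

/-- Statement (2): many twists by primes `D` work in the whole tower `C_{ℓ ^ j}`. -/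
def ManyTwists {k : Type} [Field k] [Fintype k] (k' K F : Type) [Field k'] [Algebra k k'] [Field K]
    [Algebra k[X] K] [Field F] [Algebra k'[X] F] [IsFractionRing k'[X] F] [Algebra K F]
    (α : k) (a b : k[X]) : Prop :=
  ∀ (ℓ : ℕ) (η : ℝ), ℓ.Prime → ℓ ≠ 2 → ℓ ∣ Fintype.card k ^ 2 - 1 → Independent α a b →
    NoTorusPower (b * (a ^ 2 - 4 * b)) α ℓ → 0 < η →
    ∃ n0 : ℕ, ∀ n : ℕ, n0 ≤ n → ∃ T : Finset k[X],
      (∀ D ∈ T, D.Monic ∧ Irreducible D ∧ D.natDegree = n ∧
        TateForLayers k' K F α {m | ∃ j : ℕ, m = ℓ ^ j} (a * D) (b * D ^ 2)) ∧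
      (1 / 8 * (1 - 1 / (ℓ : ℝ)) - η) * (Fintype.card k : ℝ) ^ n ≤ n * T.card

/-- Statement (3): the curve `y² = x (x² + e x + 3 e² (D_{3 ^ j}(t) - 1))` over the field with five
elements. -/
def ExampleFive (k' K F : Type) [Field k'] [Algebra (ZMod 5) k'] [Field K] [Algebra (ZMod 5)[X] K]
    [Field F] [Algebra k'[X] F] [IsFractionRing k'[X] F] [Algebra K F] : Prop :=
  ∀ (j : ℕ) (e : ZMod 5), e ≠ 0 →
    TateAtTwo (F := F) k' (crvT (algebraMap (ZMod 5)[X] K (C e))
      (algebraMap (ZMod 5)[X] K (C (3 * e ^ 2) * (dickson 1 1 (3 ^ j) - 1))))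

theorem result :
    (∀ (k k' K F : Type) [Field k] [Fintype k] [Field k'] [Algebra k k'] [Field K]
      [Algebra k[X] K] [Field F] [Algebra k'[X] F] [IsFractionRing k'[X] F] [Algebra K F],
      IsTower k k' K F → ringChar k ≠ 2 → ∀ (α : k) (a b : k[X]), α ≠ 0 → Good a b →
      AllLayers k' K F α a b ∧ ManyTwists k' K F α a b) ∧
    (∀ (k' K F : Type) [Field k'] [Algebra (ZMod 5) k'] [Field K] [Algebra (ZMod 5)[X] K] [Field F]
      [Algebra k'[X] F] [IsFractionRing k'[X] F] [Algebra K F], IsTower (ZMod 5) k' K F →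
      ExampleFive k' K F) := by
  refine ⟨fun k k' K F _ _ _ _ _ _ _ _ _ _ hT hk α a b hα hG => ⟨?_, ?_⟩, ?_⟩
  · intro D M hD hM m hm e he
    exact Pool.Agent.T6.H36.CV.cheb_covers hT (Ring.two_ne_zero hk) hG.1 hG.2.1 hG.2.2.1 hG.2.2.2 hD
      he hα hm.1 fun ℓ hℓ hℓm => hM ℓ (hm.2 ℓ hℓ hℓm)
  · intro ℓ η hℓ hℓ2 hℓk hI hp hη
    obtain ⟨n0, hn0⟩ := Pool.Agent.T6.H36.CV.cheb_prime_twists (F := F) hT hk hG.1 hG.2.1 hG.2.2.1
      hG.2.2.2 hα hI.1 hI.2.1 hI.2.2.1 hI.2.2.2 hℓ hℓ2 hℓk hp hη
    refine ⟨n0, fun n hn => ?_⟩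
    obtain ⟨T, hT', hc⟩ := hn0 n hn
    refine ⟨T, fun D hD => ?_, hc⟩
    obtain ⟨h5, h6, h7, h8⟩ := hT' D hD
    refine ⟨h5, h6, h7, ?_⟩
    rintro m ⟨j, rfl⟩ e he
    exact h8 e j he
  · intro k' K F _ _ _ _ _ _ _ _ hT j e he
    exact Pool.Agent.T6.H36.CV.example5 hT j he

end Pool.Agent.Results.MP_8ac872_ag.ChebyshevTowers
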