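import Pool.Agent.T6.H15.TD.Main

/-!
# The Tate conjecture for divisors and the growth of the defects

For a polarized surface `X` over a finite field with `q` elements let the defect of `X` be the difference
of the multiplicity of `q` as a root of the characteristic polynomial of `F^*` on `H^2(X)` and of the
dimension of the span of the classes of the divisors on `X`; the Tate conjecture for the divisors on `X`
is the assertion that the defect is zero. Let `P` be a class of polarized smooth projective surfaces
over finite extensions of a finite field which is closed under the following construction, for example
the class of all of them or the class generated by one surface: for `A` and `B` in `P` some smooth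
complete intersection of two members of the linear system `|h_A + h_B|` on `A × B` over some finite
extension of the fields of definition, with the restriction of `h_A + h_B`, is in `P`.

* If the defects of the surfaces `X` in `P` are at most `ε log (deg X) + C` then the Tate conjecture for
  divisors is true for all `Y` in `P` with `ε log (6 deg Y) < 1`.
* The Tate conjecture for divisors is true for all surfaces in `P` if and only if their defects are
  at most `o(log (deg X))`; in particular if the defects are bounded.

`T : Theory` consists of the even cohomology rings of the surfaces with the Frobenius morphism, the
divisor classes and the polarization. The hypothesis `IsTheory` consists of known properties (Poincaré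
duality on the surfaces, the trace of an exterior product, the cycle class of `S` in `A × B`, the
projection formula), see `Pool/Agent/T6/H15/TD/Defs.lean`.
-/

universe u w

open Pool.Agent.T6.H15.TD

namespace Pool.Agent.Results.MP_8ac872_ag.SublogarithmicDefects

theorem result {𝔖 : Type u} {K : Type w} [Field K] [CharZero K] {T : Theory 𝔖 K}
    (hT : T.IsTheory) {P : 𝔖 → Prop} (hP : T.IsClosed P) :
    (∀ ε C : ℝ, 0 ≤ ε → T.DefectBound P ε C →
      ∀ Y, P Y → ε * Real.log (6 * T.deg Y) < 1 → T.Tate Y) ∧
    ((∀ X, P X → T.Tate X) ↔ ∀ ε : ℝ, 0 < ε → ∃ C, T.DefectBound P ε C) :=
  ⟨fun _ _ hε h _ hY hlt => Theory.tate_of_bound hT hP hε h hY hlt, Theory.main hT hP⟩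

end Pool.Agent.Results.MP_8ac872_ag.SublogarithmicDefects
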