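import Pool.Agent.T6.H12.TD.Rank3

/-!
# The Tate conjecture at 3 for elliptic surfaces of rank one and two with a point of order three

Let `k` be a finite field with `|k|` congruent to `2` modulo three, of characteristic different from
2, `k'` an algebraic closure, `K = k(t)`, `F = k'(t)`. For polynomials `A`, `b` over `k` with
`b (b - 4 A³) ≠ 0` let `E` be the elliptic curve

`y² = x³ + (3 A x + b)²`

over `K` (`crvP K 1 A b`), the general elliptic curve over `K` with a rational point `(0, b)` of order
three. The map `(x, y) ↦ y + 3 A x + b` is a homomorphism from `E(K)` to `K* / K*³` (the Kummer map of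
the isogeny of degree three with the kernel `μ₃`); it maps `(0, b)` to the class of `2 b`.

`SpannedAtThree k' E M` says that all the classes in `V₃ Sel(E / F)` which are fixed by the Galois
group of `k` come from the subgroup `M` of `E(K)`; this contains `TateAtThree k' E`, Tate's conjecture
for divisors at the prime 3 on the elliptic surface with generic fibre `E`. Over a finite field this
gives both equalities of the conjecture for all primes, the finiteness of the Brauer group and the
conjecture of Birch and Swinnerton-Dyer for `E` (Tate, Milne); the rank of `E(K)` is that of `M`.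

Theorem.

(1) Suppose that the degrees of the irreducible factors of `b` are not divisible by three, the
degrees of the irreducible factors of `b - 4 A³` are odd, and each of the two polynomials has an
irreducible factor whose multiplicity is not divisible by three. Let `M` be a subgroup of `E(K)` such
that all the irreducible factors of `b` are in the subgroup of `K*` which is generated by the
constants, the cubes, `b`, and the values `y + 3 A x + b` at the points of `M` (`Generated`). Then
`SpannedAtThree k' E M` and the Tate conjecture at 3 hold.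

(If `b` has `s` different irreducible factors, whose multiplicities are one, one needs `s - 1` points
whose classes are independent modulo that of `b`.)

(2) A family with four free polynomials of rank one. Let `A`, `α`, `β`, `p` be polynomials,
`q = α³ - p β³ - 6 A α β`, `b = p q / 2`. Then `E` has a point `P` with the class of `p`, with first
coordinate `p α β`. If `p` and `q` are irreducible, not associated, of degrees not divisible by three,
and `b - 4 A³` is as in (1), then `P` has infinite order, and `SpannedAtThree k' E (ℤ P)` and the Tate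
conjecture at 3 hold; `E(K)` has rank one.

(3) A family with three free polynomials of rank two. Let `a`, `q`, `r` be polynomials,
`p = (a + 1) (q r - a (a + 1)² q - r + a³) + r`, `6 A = (q - 1) (r - (a + 1)³) - (a + 1)³ + a³`,
`b = p q r / 2`. Then `E` has points `P`, `Q` with first coordinates `p a` and `p q (a + 1)`. If `p`,
`q`, `r` are irreducible, not associated, of degrees not divisible by three, and `b - 4 A³` is as in
(1), then `P` and `Q` are independent, and `SpannedAtThree k' E (ℤ P + ℤ Q)` and the Tate conjecture
at 3 hold; `E(K)` has rank two.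

The geometric genus of the surfaces is not bounded. Examples over the field with five elements
(found with a computer, not checked in Lean): (2) `A = 1 + 4 t + t²`, `α = 4 + 3 t`, `β = 4 + 4 t`,
`p = 3 + 4 t + 4 t² + t⁴`, `deg q = 7`; (3) `a = 3 + t`, `q = 3 t`, `r = 3 + 3 t`, `deg p = 5`,
`deg A = 4`.

Proof. The descent of `Pool.Agent.T6.H12.TD.Crit3` (see
`Pool.Agent.Results.MP_8ac872_ag.ThreeIsogenySurfaces`), where one of the two Selmer groups is not
zero: `-3` is not a square, so only the classes of `K* / K*³` supported at the zeros of `b` occur, and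
these are the classes of points. The independence follows with the valuations of the Kummer map
(`Pool.Agent.T6.H12.TD.Eps3`).
-/

set_option autoImplicit false

namespace Pool.Agent.Results.MP_8ac872_ag.ThreeDescentRanks

open Polynomial Pool.Agent.TH115.GD Pool.Agent.T6.H12.TD
open scoped Classical

theorem result {k k' K F : Type} [Field k] [Finite k] [Field k'] [Algebra k k'] [Field K]
    [Algebra k[X] K] [Field F] [Algebra k'[X] F] [IsFractionRing k'[X] F] [Algebra K F]
    (hT : IsTower k k' K F) (h6 : (6 : k) ≠ 0) (hk : Nat.card k % 3 = 2) :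
    (∀ A b : k[X], b ≠ 0 → b - 4 * A ^ 3 ≠ 0 →
      (∀ π : k[X], Irreducible π → π ∣ b → ¬ 3 ∣ π.natDegree) → HasFactor3 b →
      OddFactors (b - 4 * A ^ 3) → HasFactor3 (b - 4 * A ^ 3) →
      ∀ M : AddSubgroup (Pt (crvP K 1 A b) K),
        (∀ π : k[X], Irreducible π → π ∣ b → Generated A b M (algebraMap k[X] K π)) →
        SpannedAtThree (F := F) k' (crvP K 1 A b) M ∧ TateAtThree (F := F) k' (crvP K 1 A b)) ∧
    (∀ A α β p : k[X], Irreducible p → Irreducible (oneQ A α β p) → ¬ p ∣ oneQ A α β p →
      ¬ 3 ∣ p.natDegree → ¬ 3 ∣ (oneQ A α β p).natDegree →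
      oneB A α β p - 4 * A ^ 3 ≠ 0 → OddFactors (oneB A α β p - 4 * A ^ 3) →
      HasFactor3 (oneB A α β p - 4 * A ^ 3) →
      (∃ P : Pt (crvP K 1 A (oneB A α β p)) K, (∀ n : ℤ, n • P = 0 → n = 0) ∧
        SpannedAtThree (F := F) k' (crvP K 1 A (oneB A α β p)) (AddSubgroup.zmultiples P)) ∧
      TateAtThree (F := F) k' (crvP K 1 A (oneB A α β p))) ∧
    (∀ a q r : k[X], Irreducible (twoP a q r) → Irreducible q → Irreducible r →
      ¬ twoP a q r ∣ q → ¬ twoP a q r ∣ r → ¬ q ∣ r →
      ¬ 3 ∣ (twoP a q r).natDegree → ¬ 3 ∣ q.natDegree → ¬ 3 ∣ r.natDegree →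
      twoB a q r - 4 * twoA a q r ^ 3 ≠ 0 → OddFactors (twoB a q r - 4 * twoA a q r ^ 3) →
      HasFactor3 (twoB a q r - 4 * twoA a q r ^ 3) →
      (∃ P Q : Pt (crvP K 1 (twoA a q r) (twoB a q r)) K,
        (∀ m n : ℤ, m • P + n • Q = 0 → m = 0 ∧ n = 0) ∧
        SpannedAtThree (F := F) k' (crvP K 1 (twoA a q r) (twoB a q r))
          (AddSubgroup.closure {P, Q})) ∧
      TateAtThree (F := F) k' (crvP K 1 (twoA a q r) (twoB a q r))) := by
  refine ⟨fun A b hb hd hb3 fb od fd M hM => ?_, fun A α β p hp hq hpq hp3 hq3 hd od fd => ?_,
    fun a q r hp hq hr hpq hpr hqr hp3 hq3 hr3 hd od fd => ?_⟩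
  · have h := points_main hT h6 hk hb hd hb3 fb od fd M hM
    exact ⟨h, tate_of_spanned h⟩
  · obtain ⟨P, h1, h2⟩ := rank_one hT h6 hk hp hq hpq hp3 hq3 hd od fd
    exact ⟨⟨P, h1, h2⟩, tate_of_spanned h2⟩
  · obtain ⟨P, Q, h1, h2⟩ := rank_two hT h6 hk hp hq hr hpq hpr hqr hp3 hq3 hr3 hd od fd
    exact ⟨⟨P, Q, h1, h2⟩, tate_of_spanned h2⟩

end Pool.Agent.Results.MP_8ac872_ag.ThreeDescentRanks
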