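import Pool.Agent.T6.H12.TD.Twist3

/-!
# The Tate conjecture at 3 for elliptic surfaces with a 3-isogeny over finite fields

Let `k` be a finite field of characteristic different from 2 and 3, `k'` an algebraic closure,
`K = k(t)`, `F = k'(t)`. For `D ∈ k*` and polynomials `A`, `b` over `k` with `b ≠ 0` and
`d = b - 4 D A³ ≠ 0` let `E` be the elliptic curve

`y² = x³ + D (3 A x + b)²`

over `K` (`crvP K D A b`). It has the rational subgroup `{0, (0, ± b √D)}` of order three; every
elliptic curve over `K` with a rational subgroup of order three whose points are defined over a
constant extension has such an equation, `D = 1` are the curves with a rational point of order three,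
and the other `D` their constant quadratic twists. The finite places of bad reduction divide `b d`.

`TateAtThree` says that all the classes in `V₃ Sel(E / F)` which are fixed by the Galois group of `k`
come from `E(K)`: the Tate conjecture for divisors at the prime 3 on the elliptic surface over the
projective line with generic fibre `E`; over a finite field this gives both equalities of the
conjecture for all primes, the finiteness of the Brauer group and the conjecture of Birch and
Swinnerton-Dyer for `E` (Tate, Milne). `SpannedAtThree ... ⊥` says that there are no such classes
besides zero; in addition the rank of `E(K)` is zero and the `L`-function of `E` does not vanish.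

Theorem.

(1) There are no such classes, and the Tate conjecture at 3 holds, if the pairs `(D, b)` and
`(-3 D, d)` satisfy the condition `Side`: `Side D p` means that `p` has an irreducible factor whose
multiplicity is not divisible by three and

* if `D` is not a square: all the irreducible factors of `p` have odd degree,
* if `D` is a square: `p` is a constant times a power `π ^ m` of an irreducible polynomial `π`, where
  `m` and the degree of `π` are not divisible by three.

(2) Let `E : y² = x³ + (3 A x + b)²` be an elliptic curve over `K` with a rational point of order
three, `A`, `b` polynomials over `k`, where `|k|` is congruent to `1` modulo three. Suppose that all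
the finite places of bad reduction have odd degree (more precisely: that all the irreducible factors
of `b (b - 4 A³)` have odd degree) and that each of `b` and `b - 4 A³` has an irreducible factor whose
multiplicity is not divisible by three. Then for all finite extensions `k₁` of `k` there are no
classes (and the Tate conjecture at 3 holds) for the quadratic twist of `E` by a constant `g ∈ k₁*`
which is not a square, over `k₁(t)`.

So for all `m` all the Tate classes of `E` over the extension of `k` of degree `2 m` are already
defined over the extension of degree `m`.

The geometric genus of the surfaces is not bounded.

Proof (a descent with the 3-isogeny; for the prime 2 there is the similar library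
`Pool.Agent.TH115.ID`). Let `φ : E → E'` be the isogeny with this kernel, `E'` has the data
`(-3 D, A, 3 d)`, and `φ' : E' → E` the dual isogeny. A cocycle with values in `ker φ` is given over
`F` by Kummer theory by a class of `F* / F*³` (`Pool.Agent.T6.H12.TD.Kum3`). If the cocycle comes from
one with values in `E` which is locally trivial, then this class has valuations divisible by three
outside the zeros of `d`: there is an explicit function on `E'` which describes the Kummer map
(`Loc3`, `Val3`). If its class is fixed by the Galois group, then the valuations modulo three give a
function on the roots of `d` which the Frobenius maps to a constant translate or reflection of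
itself; the conditions on the degrees imply that this function is constant on the roots of every
irreducible factor (`RigidFin`), so the class comes from a class of `K* / K*³`
(`Glob3`, `Desc3`). Because of the sign in the Galois action on `√(-3 D)` this is impossible unless
`-3 D` is a square, and then the class is a power of that of `d`, which comes from the points of
order three (`LemA`, `Enough`). So `c₁` is a coboundary up to `ker φ'` and the images of the points,
and one proceeds (`Step3`, `Main3`, `Crit3`).
-/

set_option autoImplicit false

namespace Pool.Agent.Results.MP_8ac872_ag.ThreeIsogenySurfaces

open Polynomial Pool.Agent.TH115.GD Pool.Agent.T6.H12.TD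

theorem result {k k₁ k' K F : Type} [Field k] [Finite k] [Field k₁] [Algebra k k₁]
    [FiniteDimensional k k₁] [Field k'] [Algebra k k'] [Algebra k₁ k'] [IsScalarTower k k₁ k']
    [Field K] [Algebra k₁[X] K] [Field F] [Algebra k'[X] F] [IsFractionRing k'[X] F] [Algebra K F]
    (hT : IsTower k₁ k' K F) (h6 : (6 : k) ≠ 0) :
    (∀ (D : k₁) (A b : k₁[X]), D ≠ 0 → b ≠ 0 → b - 4 * C D * A ^ 3 ≠ 0 →
      Side D b → Side (-3 * D) (b - 4 * C D * A ^ 3) →
        SpannedAtThree (F := F) k' (crvP K D A b) ⊥ ∧
        TateAtThree (F := F) k' (crvP K D A b)) ∧
    (Nat.card k % 3 = 1 → ∀ A b : k[X], b ≠ 0 → b - 4 * A ^ 3 ≠ 0 →
      OddFactors b → OddFactors (b - 4 * A ^ 3) → HasFactor3 b → HasFactor3 (b - 4 * A ^ 3) →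
      ∀ g : k₁, ¬ IsSquare g →
        SpannedAtThree (F := F) k' (crvP K g (A.map (algebraMap k k₁))
          (C g * b.map (algebraMap k k₁))) ⊥ ∧
        TateAtThree (F := F) k' (crvP K g (A.map (algebraMap k k₁))
          (C g * b.map (algebraMap k k₁)))) := by
  haveI : Finite k₁ := Module.finite_of_finite k
  have h6' : (6 : k₁) ≠ 0 := by
    rw [← map_ofNat (algebraMap k k₁) 6]
    exact (_root_.map_ne_zero _).2 h6
  refine ⟨fun D A b hD hb hd sb sd => ?_, fun hq A b hb hd ob od fb fd g hg => ?_⟩
  · have h := fin_zero hT h6' hD hb hd sb sd
    exact ⟨h, tate_of_spanned h⟩
  · have h := twist_zero hT h6 hq hb hd ob od fb fd hg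
    exact ⟨h, tate_of_spanned h⟩

end Pool.Agent.Results.MP_8ac872_ag.ThreeIsogenySurfaces
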